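import Pool.Agent.Helper35.KN.Sep
import Pool.Agent.Helper79.KQ.Defs

/-!
All degrees: the numbers of `w ^ M = f(x_1, …, x_m)`, pairwise coprime exponents, satisfy `IsCyclic`.
-/

set_option autoImplicit false

open Pool.Agent.Helper79.KN Pool.Agent.Helper79.KQ

namespace Pool.Agent.Helper98.KU

open Finset Pool.Agent.Helper35.KN

variable {m : ℕ} {a : Fin m → ℕ}

theorem fract_int {A : ℤ} (hA : 0 < A) {x : ℚ} {z : ℤ} (h : (A : ℚ) * x = z) :
    (A : ℚ) * Int.fract x = ((z % A : ℤ) : ℚ) := by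
  have hAq : (0 : ℚ) < A := by exact_mod_cast hA
  have hx : x = (z : ℚ) / (A : ℚ) := by
    rw [← h]
    field_simp
  have h1 : ⌊x⌋ = z / A := by
    rw [hx]
    rw [Int.floor_eq_iff]
    have h2 := Int.emod_add_mul_ediv z A
    have h3 := Int.emod_nonneg z hA.ne'
    have h4 := Int.emod_lt_of_pos z hA
    have h2' : ((z % A : ℤ) : ℚ) + A * ((z / A : ℤ) : ℚ) = z := by exact_mod_cast h2
    have h3' : (0 : ℚ) ≤ ((z % A : ℤ) : ℚ) := by exact_mod_cast h3
    have h4' : ((z % A : ℤ) : ℚ) < A := by exact_mod_cast h4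
    constructor
    · rw [le_div_iff₀ hAq]
      linarith [mul_comm (A : ℚ) ((z / A : ℤ) : ℚ)]
    · rw [div_lt_iff₀ hAq]
      linarith [mul_comm (A : ℚ) ((z / A : ℤ) : ℚ)]
  have h2 := Int.emod_add_mul_ediv z A
  have h2' : ((z % A : ℤ) : ℚ) + A * ((z / A : ℤ) : ℚ) = z := by exact_mod_cast h2
  rw [Int.fract, h1, mul_sub, h]
  linarith

theorem isSpectrum (hm : 0 < m) (hco : ∀ k l, k ≠ l → Nat.Coprime (a k) (a l)) (ha : ∀ k, 1 < a k)
    {n : Type} [Fintype n] (hN : 4 < Fintype.card n) (e : n ≃ {i // i ∈ Idx a}) (hle : Fintype.card n ≤ ∏ k, a k) :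
    IsSpectrum (fun x => ∑ k, ((e x).1 k : ℚ) / a k) (∏ k, a k) := by
  classical
  have hA := A_pos ha
  have hAq : (0 : ℚ) < A a := by exact_mod_cast hA
  have hAc : ((∏ k, a k : ℕ) : ℤ) = A a := A_cast.symm
  have hAcq : ((∏ k, a k : ℕ) : ℚ) = (A a : ℚ) := by
    have : (((∏ k, a k : ℕ) : ℤ) : ℚ) = (A a : ℚ) := by rw [hAc]
    exact_mod_cast this
  have hA4 : (4 : ℤ) < A a := by
    rw [← hAc]
    exact_mod_cast lt_of_lt_of_le hN hle
  have hden : ∀ x : n, (A a : ℚ) * ∑ k, ((e x).1 k : ℚ) / a k = ((b a (e x).1 : ℤ) : ℚ) := by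
    intro x
    rw [x_eq ha]
    field_simp
  have hfr : ∀ x : n, (A a : ℚ) * Int.fract (∑ k, ((e x).1 k : ℚ) / a k) = ((b a (e x).1 % A a : ℤ) : ℚ) :=
    fun x => fract_int hA (hden x)
  have hpos : ∀ x : n, 0 < b a (e x).1 % A a := by
    intro x
    have h1 := Int.emod_nonneg (b a (e x).1) hA.ne'
    have h2 : b a (e x).1 % A a ≠ 0 := fun h => b_ne hm hco (e x).2 (Int.dvd_of_emod_eq_zero h)
    omega
  have hone : ∀ x : n, Int.fract (∑ k, ((e x).1 k : ℚ) / a k) = 1 / (A a : ℚ) ↔ b a (e x).1 % A a = 1 := by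
    intro x
    rw [eq_div_iff hAq.ne', mul_comm, hfr x]
    constructor
    · intro h
      exact_mod_cast h
    · intro h
      rw [h]
      norm_num
  refine ⟨?_, ?_, ?_, ?_, ?_⟩
  · have : (0 : ℤ) < ((∏ k, a k : ℕ) : ℤ) := by rw [hAc]; exact hA
    exact_mod_cast this
  · intro x
    refine ⟨b a (e x).1, ?_⟩
    rw [hAcq]
    exact hden x
  · intro x z hz
    have h1 := hden x
    rw [hz] at h1
    have h2 : A a * z = b a (e x).1 := by exact_mod_cast h1
    exact b_ne hm hco (e x).2 ⟨z, h2.symm⟩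
  · let τ : {i // i ∈ Idx a} → {i // i ∈ Idx a} := fun i => ⟨fun k => a k - i.1 k, by
      have := (mem_Idx a).1 i.2
      rw [mem_Idx]
      intro k
      have := this k
      omega⟩
    have hτ : ∀ i, τ (τ i) = i := by
      intro i
      apply Subtype.ext
      funext k
      have := (mem_Idx a).1 i.2 k
      simp only [τ]
      omega
    let τe : Equiv.Perm {i // i ∈ Idx a} := ⟨τ, τ, hτ, hτ⟩
    refine ⟨(e.trans τe).trans e.symm, m, fun x => ?_⟩
    have h1 : e (((e.trans τe).trans e.symm) x) = τ (e x) := by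
      simp [τe]
    rw [h1]
    have h2 : ∀ k, (((τ (e x)).1 k : ℕ) : ℚ) / a k + ((e x).1 k : ℚ) / a k = 1 := by
      intro k
      have h3 := (mem_Idx a).1 (e x).2 k
      have h4 : (a k : ℚ) ≠ 0 := by
        have := ha k
        positivity
      simp only [τ]
      rw [Nat.cast_sub h3.2.le, ← add_div, sub_add_cancel, div_self h4]
    rw [eq_sub_iff_add_eq, ← Finset.sum_add_distrib, Finset.sum_congr rfl fun k _ => h2 k]
    simp
  · refine ⟨1 / (A a : ℚ), ?_, ?_, ?_, ?_⟩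
    · rw [mul_one_div, div_le_one hAq]
      exact_mod_cast hA4.le
    · intro x
      rw [div_le_iff₀ hAq, mul_comm, hfr x]
      exact_mod_cast hpos x
    · obtain ⟨i, hi, h1⟩ := exists_b hco ha (g := 1) (fun k => isCoprime_one_right)
      refine ⟨e.symm ⟨i, hi⟩, ?_⟩
      rw [hone]
      rw [Equiv.apply_symm_apply]
      have h2 : b a i % A a = 1 % A a := Int.emod_eq_emod_iff_emod_sub_eq_zero.2 (Int.emod_eq_zero_of_dvd h1)
      show b a i % A a = 1
      rw [h2]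
      exact Int.emod_eq_of_lt (by norm_num) (by omega)
    · have h1 : (Finset.univ.filter fun x : n => Int.fract (∑ k, ((e x).1 k : ℚ) / a k) = 1 / (A a : ℚ)).card ≤ 1 := by
        rw [Finset.card_le_one]
        intro x hx y hy
        rw [Finset.mem_filter] at hx hy
        have h2 := (hone x).1 hx.2
        have h3 := (hone y).1 hy.2
        have h4 : A a ∣ b a (e x).1 - b a (e y).1 := by
          apply Int.dvd_of_emod_eq_zero
          rw [Int.sub_emod, h2, h3]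
          simp
        have h5 := b_inj hco (e x).2 (e y).2 h4
        exact e.injective (Subtype.ext h5)
      omega

/-- **the numbers are cyclic**, for any characters -/
theorem cyclic_any (hm : 0 < m) (a : Fin m → ℕ) (hco : ∀ k l, k ≠ l → Nat.Coprime (a k) (a l)) (ha : ∀ k, 1 < a k)
    {X T : Type} {M : ℕ} {u : X → ℕ} (hinj : Function.Injective u)
    (hu : ∀ x, 0 < u x ∧ 2 * u x < M ∧ ∃ r : ℕ, r.Prime ∧ 4 * ∏ k, a k < r ∧ r ∣ M / Nat.gcd (u x) M) {c : T → ℕ}
    (hc : ∀ k : ℕ, Nat.Coprime k M → ∃ t, c t = k) {n : Type} [Fintype n]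
    (hn : Fintype.card n = ∏ k, (a k - 1)) (h4 : 4 < Fintype.card n) :
    IsCyclic n fun t x q => spec a M (c t * u x % M) q := by
  classical
  have hcard : Fintype.card n = Fintype.card {i // i ∈ Idx a} := by
    rw [hn, Fintype.card_coe, card_Idx]
  obtain ⟨e⟩ := Fintype.card_eq.1 hcard
  have hle : Fintype.card n ≤ ∏ k, a k := by
    rw [hn]
    exact Finset.prod_le_prod' fun k _ => Nat.sub_le _ _
  refine ⟨fun x => ∑ k, ((e x).1 k : ℚ) / a k, ∏ k, a k, M, c, u,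
    isSpectrum hm hco ha h4 e hle, hinj, hu, hc, ?_⟩
  intro t x q
  unfold spec num
  refine (Finset.card_bij (fun x _ => (e x).1) ?_ ?_ ?_).symm
  · intro x hx
    rw [Finset.mem_filter] at hx
    rw [Finset.mem_filter]
    exact ⟨(e x).2, hx.2⟩
  · intro x _ y _ h
    exact e.injective (Subtype.ext h)
  · intro i hi
    rw [Finset.mem_filter] at hi
    have hi1 : i ∈ Idx a := hi.1
    have he : (e (e.symm ⟨i, hi1⟩)).1 = i := by rw [Equiv.apply_symm_apply]
    refine ⟨e.symm ⟨i, hi1⟩, ?_, he⟩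
    rw [Finset.mem_filter]
    refine ⟨Finset.mem_univ _, ?_⟩
    show ⌊∑ k, ((e (e.symm ⟨i, hi1⟩)).1 k : ℚ) / a k + ((c t * u x % M : ℕ) : ℚ) / M⌋ = q
    rw [he]
    exact hi.2

/-- the order of a nontrivial character has a large prime factor -/
theorem large_factor {M u B : ℕ} (hM : ∀ r : ℕ, r.Prime → r ∣ M → B < r) (hu : 0 < u) (hu2 : 2 * u < M) :
    ∃ r : ℕ, r.Prime ∧ B < r ∧ r ∣ M / Nat.gcd u M := by
  have hd : Nat.gcd u M ∣ M := Nat.gcd_dvd_right u M
  have h1 : 1 < M / Nat.gcd u M := by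
    have h2 := Nat.le_of_dvd hu (Nat.gcd_dvd_left u M)
    rw [Nat.lt_div_iff_mul_lt' hd]
    omega
  obtain ⟨r, hr, hr1⟩ := Nat.exists_prime_and_dvd (by omega : M / Nat.gcd u M ≠ 1)
  exact ⟨r, hr, hM r hr (hr1.trans (Nat.div_dvd_of_dvd hd)), hr1⟩

/-- **the numbers are cyclic** -/
theorem cyclic (hm : 0 < m) (a : Fin m → ℕ) (hco : ∀ k l, k ≠ l → Nat.Coprime (a k) (a l)) (ha : ∀ k, 1 < a k) {M : ℕ}
    (hM : ∀ r : ℕ, r.Prime → r ∣ M → 4 * ∏ k, a k < r) {n : Type} [Fintype n]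
    (hn : Fintype.card n = ∏ k, (a k - 1)) (h4 : 4 < Fintype.card n) :
    IsCyclic (X := {u : ℕ // 0 < u ∧ 2 * u < M}) (T := {t : ℕ // Nat.Coprime t M}) n
      fun t u q => spec a M (t.1 * u.1 % M) q :=
  cyclic_any hm a hco ha (u := fun u : {u : ℕ // 0 < u ∧ 2 * u < M} => u.1)
    (c := fun t : {t : ℕ // Nat.Coprime t M} => t.1) Subtype.val_injective
    (fun u => ⟨u.2.1, u.2.2, large_factor hM u.2.1 u.2.2⟩) (fun k hk => ⟨⟨k, hk⟩, rfl⟩) hn h4

end Pool.Agent.Helper98.KU
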