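import Pool.Agent.Helper61.KT.MeetSum

/-!
All degrees: the numbers of `w ^ M = f(x_1, …, x_m)` for `b ∑ 1 / a_k < φ(M) / M`.
-/

set_option autoImplicit false

open Pool.Agent.Helper79.KN Pool.Agent.Helper33.KN

namespace Pool.Agent.Helper98.KU

open Finset

/-- the number of the multiples in a short interval -/
theorem count_low {M u A p : ℕ} (hA : 0 < A) (hu : 0 < u) (hun : u < M) :
    A * ((range M).filter fun t => 0 < t * u % M ∧ A * (t * u % M) ≤ p * M).card ≤ p * M := by
  classical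
  obtain ⟨g, hg0, u0, Q, hcop, rfl, rfl⟩ : ∃ g : ℕ, 0 < g ∧ ∃ u0 Q : ℕ, Nat.Coprime Q u0 ∧ u = g * u0 ∧ M = Q * g := by
    obtain ⟨g, u0, Q, hg, hc, h1, h2⟩ := Nat.exists_coprime' (Nat.gcd_pos_of_pos_left M hu)
    exact ⟨g, hg, u0, Q, hc.symm, by rw [h1, mul_comm], h2⟩
  have hQ0 : 0 < Q := by
    rcases Nat.eq_zero_or_pos Q with h | h
    · subst h
      omega
    · exact h
  have hmod : ∀ t, t * (g * u0) % (Q * g) = (t * u0 % Q) * g := by
    intro t
    rw [show t * (g * u0) = t * u0 * g by ring, Nat.mul_mod_mul_right]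
  set S := (range (Q * g)).filter fun t => 0 < t * (g * u0) % (Q * g) ∧
    A * (t * (g * u0) % (Q * g)) ≤ p * (Q * g) with hS
  have h1 : S.card ≤ g * (S.image fun t => t * u0 % Q).card := by
    refine Finset.card_le_mul_card_image S g fun b _ => ?_
    rw [← Finset.card_range g]
    refine Finset.card_le_card_of_injOn (fun t => t / Q) ?_ ?_
    · intro t ht
      rw [Finset.mem_coe, Finset.mem_filter, hS, Finset.mem_filter, Finset.mem_range] at ht
      rw [Finset.mem_coe, Finset.mem_range]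
      rw [Nat.div_lt_iff_lt_mul hQ0, mul_comm]
      exact ht.1.1
    · intro t ht t' ht' htt
      rw [Finset.mem_coe, Finset.mem_filter] at ht ht'
      have h2 : t * u0 ≡ t' * u0 [MOD Q] := ht.2.trans ht'.2.symm
      have h3 : t ≡ t' [MOD Q] := Nat.ModEq.cancel_right_of_coprime hcop h2
      have h4 := Nat.div_add_mod t Q
      have h5 := Nat.div_add_mod t' Q
      have h6 : t / Q = t' / Q := htt
      have h3' : t % Q = t' % Q := h3
      rw [h6, h3'] at h4
      rw [← h4]
      exact h5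
  have h2 : (S.image fun t => t * u0 % Q) ⊆ Finset.Ioc 0 (p * Q / A) := by
    intro v hv
    rw [Finset.mem_image] at hv
    obtain ⟨t, ht, rfl⟩ := hv
    rw [hS, Finset.mem_filter, hmod] at ht
    obtain ⟨-, h3, h4⟩ := ht
    rw [Finset.mem_Ioc]
    refine ⟨Nat.pos_of_mul_pos_right h3, ?_⟩
    rw [Nat.le_div_iff_mul_le hA]
    rw [← mul_assoc, ← mul_assoc] at h4
    have := Nat.le_of_mul_le_mul_right h4 hg0
    rw [mul_comm]
    exact this
  have h3 := Finset.card_le_card h2
  rw [Nat.card_Ioc, Nat.sub_zero] at h3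
  calc A * S.card ≤ A * (g * (p * Q / A)) := Nat.mul_le_mul_left _ (h1.trans (Nat.mul_le_mul_left _ h3))
    _ = g * (A * (p * Q / A)) := by ring
    _ ≤ g * (p * Q) := Nat.mul_le_mul_left _ (Nat.mul_div_le _ _)
    _ = p * (Q * g) := by ring

theorem count_high {M u A p : ℕ} (hA : 0 < A) (hu : 0 < u) (hun : u < M) :
    A * ((range M).filter fun t => 0 < t * u % M ∧ A * (M - t * u % M) ≤ p * M).card ≤ p * M := by
  classical
  refine le_trans (Nat.mul_le_mul_left _ (Finset.card_le_card ?_)) (count_low (u := M - u) (A := A) hA (by omega) (by omega))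
  intro t ht
  rw [Finset.mem_filter] at ht ⊢
  obtain ⟨h0, h1, h2⟩ := ht
  have hn : 0 < M := by omega
  have h3 : t * (M - u) % M = M - t * u % M := by
    have h4 : t * (M - u) + t * u = M * t := by
      rw [← mul_add, Nat.sub_add_cancel hun.le, mul_comm]
    have h5 := Nat.div_add_mod (t * u) M
    have h6 := Nat.mod_lt (t * u) hn
    have h7 : t * u / M < t := by
      rw [Nat.div_lt_iff_lt_mul hn]
      have ht0 : 0 < t := Nat.pos_of_ne_zero (by rintro rfl; simp at h1)
      exact Nat.mul_lt_mul_of_pos_left hun ht0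
    have h8 : t * (M - u) = (M - t * u % M) + M * (t - t * u / M - 1) := by
      obtain ⟨w, hw⟩ : ∃ w, t = t * u / M + 1 + w := ⟨t - t * u / M - 1, by omega⟩
      have h9 : t - t * u / M - 1 = w := by omega
      rw [h9]
      have h10 : M * t = M * (t * u / M) + M + M * w := by
        conv_lhs => rw [hw]
        ring
      omega
    rw [h8, Nat.add_mul_mod_self_left]
    exact Nat.mod_eq_of_lt (by omega)
  rw [h3]
  have h4 := Nat.mod_lt (t * u) hn
  exact ⟨h0, by omega, h2⟩

/-- **the union bound** -/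
theorem exists_unit {J : Type} [Fintype J] {M A : ℕ} (hA0 : 0 < A) (u p : J → ℕ)
    (b : J → Bool) (hu : ∀ j, 0 < u j) (hun : ∀ j, u j < M) (hp : (∑ j, p j) * M < A * Nat.totient M) :
    ∃ t, Nat.Coprime t M ∧ ∀ j, if b j then p j * M < A * (M - t * u j % M)
      else p j * M < A * (t * u j % M) := by
  classical
  by_contra hc
  push Not at hc
  let Bad : J → Finset ℕ := fun j => if b j then
    (range M).filter fun t => 0 < t * u j % M ∧ A * (M - t * u j % M) ≤ p j * M
    else (range M).filter fun t => 0 < t * u j % M ∧ A * (t * u j % M) ≤ p j * M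
  have hbad : ∀ j, A * (Bad j).card ≤ p j * M := by
    intro j
    by_cases hb : b j
    · simp only [Bad, hb, if_true]
      exact count_high hA0 (hu j) (hun j)
    · simp only [Bad, hb]
      exact count_low hA0 (hu j) (hun j)
  have hcov : ((range M).filter fun t => M.Coprime t) ⊆ Finset.univ.biUnion Bad := by
    intro t ht
    rw [Finset.mem_filter] at ht
    have hcop : Nat.Coprime t M := ht.2.symm
    obtain ⟨j, hj⟩ := hc t hcop
    rw [Finset.mem_biUnion]
    refine ⟨j, Finset.mem_univ _, ?_⟩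
    have h0 : 0 < t * u j % M := by
      refine Nat.pos_of_ne_zero fun h => ?_
      have h3 : M ∣ t * u j := Nat.dvd_of_mod_eq_zero h
      have h4 : M ∣ u j := (hcop.symm).dvd_of_dvd_mul_left h3
      have := Nat.le_of_dvd (hu j) h4
      have := hun j
      omega
    by_cases hb : b j
    · simp only [hb, if_true, not_lt] at hj
      simp only [Bad, hb, if_true]
      exact Finset.mem_filter.2 ⟨ht.1, h0, hj⟩
    · simp only [hb] at hj
      simp only [Bad, hb]
      exact Finset.mem_filter.2 ⟨ht.1, h0, by simpa using hj⟩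
  have h3 := (Finset.card_le_card hcov).trans Finset.card_biUnion_le
  have h4 : A * ∑ j, (Bad j).card ≤ (∑ j, p j) * M := by
    rw [Finset.mul_sum, Finset.sum_mul]
    exact Finset.sum_le_sum fun j _ => hbad j
  have h5 : Nat.totient M = ((range M).filter fun t => M.Coprime t).card := rfl
  rw [h5] at hp
  have h6 := Nat.mul_le_mul_left A h3
  omega

/-- any eigenspaces have as many holomorphic forms as we need at the same time -/
theorem meet_sum (m : ℕ) (a : Fin m → ℕ) (M : ℕ) (ι : Type) [Fintype ι] (hM : 0 < M)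
    (hm : 0 < m) (ha : ∀ k, 1 < a k) (hS : Fintype.card ι * ∑ k, (1 / a k : ℚ) < (Nat.totient M : ℚ) / M) :
    Helper73.KT.IsMeet ι (X := {u : ℕ // 0 < u ∧ 2 * u < M}) (T := {t : ℕ // Nat.Coprime t M})
      (fun t u q => spec a M (t.1 * u.1 % M) q) m := by
  classical
  intro i
  set A : ℕ := ∏ k, a k with hAdef
  have hA0 : 0 < A := Finset.prod_pos fun k _ => by have := ha k; omega
  have hAq : (0 : ℚ) < A := by exact_mod_cast hA0
  have hMq : (0 : ℚ) < M := by exact_mod_cast hM
  -- `P = A * ∑ 1 / a_k`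
  let P : ℕ := ∑ k, A / a k
  have hP : (P : ℚ) = A * ∑ k, (1 / a k : ℚ) := by
    simp only [P]
    rw [Nat.cast_sum, Finset.mul_sum]
    refine Finset.sum_congr rfl fun k _ => ?_
    have h1 : a k ∣ A := Finset.dvd_prod_of_mem a (Finset.mem_univ k)
    rw [Nat.cast_div h1 (by have := ha k; positivity)]
    ring
  let c : {l // l ∈ Finset.univ.image i} → ℕ := fun l => (Finset.univ.filter fun a => i a = l.1).card
  have hc : ∑ l, c l = Fintype.card ι := by
    have h1 := Finset.card_eq_sum_card_image i (Finset.univ : Finset ι)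
    rw [Finset.card_univ] at h1
    rw [h1]
    exact Finset.sum_coe_sort (Finset.univ.image i) fun l => (Finset.univ.filter fun a => i a = l).card
  have hsum : (∑ l, c l * P) * M < A * Nat.totient M := by
    rw [← Finset.sum_mul, hc]
    have h1 : ((Fintype.card ι * P * M : ℕ) : ℚ) < ((A * Nat.totient M : ℕ) : ℚ) := by
      push_cast
      rw [hP]
      have h2 := (lt_div_iff₀ hMq).1 hS
      calc (Fintype.card ι : ℚ) * (A * ∑ k, (1 / a k : ℚ)) * M = A * (Fintype.card ι * (∑ k, (1 / a k : ℚ)) * M) := by ring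
        _ < A * (Nat.totient M : ℚ) := mul_lt_mul_of_pos_left h2 hAq
    exact_mod_cast h1
  obtain ⟨t, ht, h⟩ := exists_unit (J := {l // l ∈ Finset.univ.image i}) hA0 (fun l => l.1.1.1) (fun l => c l * P) (fun l => l.1.2)
    (fun l => l.1.1.2.1) (fun l => by have := l.1.1.2.2; omega) hsum
  refine ⟨⟨t, ht⟩, fun l => ?_⟩
  rcases (Finset.univ.filter fun a => i a = l).eq_empty_or_nonempty with h1 | ⟨b, hb⟩
  · rw [h1, Finset.card_empty]
    exact Nat.zero_le _
  rw [Finset.mem_filter] at hb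
  have hl : l ∈ Finset.univ.image i := Finset.mem_image.2 ⟨b, Finset.mem_univ _, hb.2⟩
  have h1 := h ⟨l, hl⟩
  have hlt := Nat.mod_lt (t * l.1.1) hM
  have hcl : c ⟨l, hl⟩ = (Finset.univ.filter fun a => i a = l).card := rfl
  rw [← hcl]
  unfold hzero
  by_cases hb' : l.2
  · rw [if_pos hb']
    rw [if_pos hb'] at h1
    refine Helper61.KT.spec_zero_ge hm ha ?_
    have h2 : ((c ⟨l, hl⟩ * P * M : ℕ) : ℚ) < ((A * (M - t * l.1.1 % M) : ℕ) : ℚ) := by exact_mod_cast h1
    rw [Nat.cast_mul, Nat.cast_mul, hP, Nat.cast_mul A, Nat.cast_sub hlt.le] at h2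
    have h3 : (c ⟨l, hl⟩ : ℚ) * (∑ k, (1 / a k : ℚ)) * (M : ℕ) < (M : ℕ) - (t * l.1.1 % M : ℕ) := by
      have h4 : (A : ℚ) * ((c ⟨l, hl⟩ : ℚ) * (∑ k, (1 / a k : ℚ)) * (M : ℕ)) <
          A * ((M : ℕ) - (t * l.1.1 % M : ℕ)) := by
        calc _ = (c ⟨l, hl⟩ : ℚ) * (A * ∑ k, (1 / a k : ℚ)) * (M : ℕ) := by ring
          _ < _ := h2
      exact lt_of_mul_lt_mul_left h4 hAq.le
    have h5 : (c ⟨l, hl⟩ : ℚ) * ∑ k, (1 / a k : ℚ) < ((M : ℕ) - (t * l.1.1 % M : ℕ)) / (M : ℕ) :=
      (lt_div_iff₀ hMq).2 h3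
    rw [sub_div, div_self hMq.ne'] at h5
    exact lt_sub_iff_add_lt.1 h5
  · rw [if_neg hb']
    rw [if_neg hb'] at h1
    refine Helper61.KT.spec_top_ge hm ha hlt ?_
    have h2 : ((c ⟨l, hl⟩ * P * M : ℕ) : ℚ) < ((A * (t * l.1.1 % M) : ℕ) : ℚ) := by exact_mod_cast h1
    rw [Nat.cast_mul, Nat.cast_mul, hP, Nat.cast_mul A] at h2
    rw [lt_div_iff₀ hMq]
    have h4 : (A : ℚ) * ((c ⟨l, hl⟩ : ℚ) * (∑ k, (1 / a k : ℚ)) * (M : ℕ)) < A * (t * l.1.1 % M : ℕ) := by
      calc _ = (c ⟨l, hl⟩ : ℚ) * (A * ∑ k, (1 / a k : ℚ)) * (M : ℕ) := by ring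
        _ < _ := h2
    exact lt_of_mul_lt_mul_left h4 hAq.le

end Pool.Agent.Helper98.KU
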