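import Pool.Agent.Helper61.K4.Defs
import Pool.Agent.Helper21.KQ.Main
import Pool.Agent.Helper98.KU.MeetM
import Pool.Agent.Helper98.KU.Cyc

/-!
All degrees, several families: the numbers of the varieties `w ^ M = f_s(x_1, …, x_m)`.
-/

set_option autoImplicit false

open Pool.Agent.Helper79.KN Pool.Agent.Helper33.KN

namespace Pool.Agent.Helper98.KU

open Finset

theorem count_low' {M u : ℕ} {θ : ℚ} (hθ : 0 ≤ θ) (hu : 0 < u) (hun : u < M) :
    (((range M).filter fun t => 0 < t * u % M ∧ ((t * u % M : ℕ) : ℚ) ≤ θ * M).card : ℚ) ≤ θ * M := by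
  classical
  obtain ⟨p, hp⟩ := Int.eq_ofNat_of_zero_le (Rat.num_nonneg.2 hθ)
  have hA : (0 : ℚ) < θ.den := by exact_mod_cast θ.den_pos
  have hAθ : (θ.den : ℚ) * θ = p := by
    have h1 := Rat.mul_den_eq_num θ
    rw [hp] at h1
    rw [mul_comm, h1]
    simp
  have h1 := count_low (M := M) (u := u) (A := θ.den) (p := p) θ.den_pos hu hun
  have h2 : ((range M).filter fun t => 0 < t * u % M ∧ ((t * u % M : ℕ) : ℚ) ≤ θ * M) ⊆
      (range M).filter fun t => 0 < t * u % M ∧ θ.den * (t * u % M) ≤ p * M := by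
    intro t ht
    rw [Finset.mem_filter] at ht ⊢
    refine ⟨ht.1, ht.2.1, ?_⟩
    have h3 : (θ.den : ℚ) * ((t * u % M : ℕ) : ℚ) ≤ θ.den * (θ * M) := mul_le_mul_of_nonneg_left ht.2.2 hA.le
    rw [← mul_assoc, hAθ] at h3
    exact_mod_cast h3
  have h3 := Nat.mul_le_mul_left θ.den (Finset.card_le_card h2)
  have h4 := h3.trans h1
  have h5 : (θ.den : ℚ) * (((range M).filter fun t => 0 < t * u % M ∧ ((t * u % M : ℕ) : ℚ) ≤ θ * M).card : ℚ) ≤
      θ.den * (θ * M) := by
    rw [← mul_assoc, hAθ]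
    exact_mod_cast h4
  exact le_of_mul_le_mul_left h5 hA

theorem count_high' {M u : ℕ} {θ : ℚ} (hθ : 0 ≤ θ) (hu : 0 < u) (hun : u < M) :
    (((range M).filter fun t => 0 < t * u % M ∧ (M : ℚ) - ((t * u % M : ℕ) : ℚ) ≤ θ * M).card : ℚ) ≤ θ * M := by
  classical
  obtain ⟨p, hp⟩ := Int.eq_ofNat_of_zero_le (Rat.num_nonneg.2 hθ)
  have hA : (0 : ℚ) < θ.den := by exact_mod_cast θ.den_pos
  have hAθ : (θ.den : ℚ) * θ = p := by
    have h1 := Rat.mul_den_eq_num θ
    rw [hp] at h1
    rw [mul_comm, h1]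
    simp
  have h1 := count_high (M := M) (u := u) (A := θ.den) (p := p) θ.den_pos hu hun
  have h2 : ((range M).filter fun t => 0 < t * u % M ∧ (M : ℚ) - ((t * u % M : ℕ) : ℚ) ≤ θ * M) ⊆
      (range M).filter fun t => 0 < t * u % M ∧ θ.den * (M - t * u % M) ≤ p * M := by
    intro t ht
    rw [Finset.mem_filter] at ht ⊢
    refine ⟨ht.1, ht.2.1, ?_⟩
    have h3 : (θ.den : ℚ) * ((M : ℚ) - ((t * u % M : ℕ) : ℚ)) ≤ θ.den * (θ * M) :=
      mul_le_mul_of_nonneg_left ht.2.2 hA.le
    rw [← mul_assoc, hAθ, ← Nat.cast_sub (Nat.mod_lt _ (by omega)).le] at h3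
    exact_mod_cast h3
  have h3 := Nat.mul_le_mul_left θ.den (Finset.card_le_card h2)
  have h4 := h3.trans h1
  have h5 : (θ.den : ℚ) *
      (((range M).filter fun t => 0 < t * u % M ∧ (M : ℚ) - ((t * u % M : ℕ) : ℚ) ≤ θ * M).card : ℚ) ≤
      θ.den * (θ * M) := by
    rw [← mul_assoc, hAθ]
    exact_mod_cast h4
  exact le_of_mul_le_mul_left h5 hA

/-- **the union bound** -/
theorem exists_unit' {J : Type} [Fintype J] {M : ℕ} (hM : 0 < M) (u : J → ℕ) (θ : J → ℚ) (hθ : ∀ j, 0 ≤ θ j)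
    (b : J → Bool) (hu : ∀ j, 0 < u j) (hun : ∀ j, u j < M) (hp : ∑ j, θ j < (Nat.totient M : ℚ) / M) :
    ∃ t, Nat.Coprime t M ∧ ∀ j, if b j then θ j * M < (M : ℚ) - ((t * u j % M : ℕ) : ℚ)
      else θ j * M < ((t * u j % M : ℕ) : ℚ) := by
  classical
  have hMq : (0 : ℚ) < M := by exact_mod_cast hM
  by_contra hc
  push Not at hc
  let Bad : J → Finset ℕ := fun j => if b j then
    (range M).filter fun t => 0 < t * u j % M ∧ (M : ℚ) - ((t * u j % M : ℕ) : ℚ) ≤ θ j * M
    else (range M).filter fun t => 0 < t * u j % M ∧ ((t * u j % M : ℕ) : ℚ) ≤ θ j * M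
  have hbad : ∀ j, ((Bad j).card : ℚ) ≤ θ j * M := by
    intro j
    by_cases hb : b j
    · simp only [Bad, hb, if_true]
      exact count_high' (hθ j) (hu j) (hun j)
    · simp only [Bad, hb]
      exact count_low' (hθ j) (hu j) (hun j)
  have hcov : ((range M).filter fun t => M.Coprime t) ⊆ Finset.univ.biUnion Bad := by
    intro t ht
    rw [Finset.mem_filter] at ht
    have hcop : Nat.Coprime t M := ht.2.symm
    obtain ⟨j, hj⟩ := hc t hcop
    rw [Finset.mem_biUnion]
    refine ⟨j, Finset.mem_univ _, ?_⟩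
    have h0 : 0 < t * u j % M := by
      refine Nat.pos_of_ne_zero fun h => ?_
      have h3 : M ∣ t * u j := Nat.dvd_of_mod_eq_zero h
      have h4 : M ∣ u j := (hcop.symm).dvd_of_dvd_mul_left h3
      have := Nat.le_of_dvd (hu j) h4
      have := hun j
      omega
    by_cases hb : b j
    · simp only [hb, if_true, not_lt] at hj
      simp only [Bad, hb, if_true]
      exact Finset.mem_filter.2 ⟨ht.1, h0, hj⟩
    · simp only [hb] at hj
      simp only [Bad, hb]
      exact Finset.mem_filter.2 ⟨ht.1, h0, by simpa using hj⟩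
  have h3 := (Finset.card_le_card hcov).trans Finset.card_biUnion_le
  have h5 : Nat.totient M = ((range M).filter fun t => M.Coprime t).card := rfl
  rw [← h5] at h3
  have h6 : (Nat.totient M : ℚ) ≤ ∑ j, ((Bad j).card : ℚ) := by exact_mod_cast h3
  have h7 : ∑ j, ((Bad j).card : ℚ) ≤ (∑ j, θ j) * M := by
    rw [Finset.sum_mul]
    exact Finset.sum_le_sum fun j _ => hbad j
  rw [lt_div_iff₀ hMq] at hp
  linarith

/-- **any eigenspaces have as many holomorphic forms as we need at the same time** (the exponents may depend on the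
family) -/
theorem meet_any {m : ℕ} (hm : 0 < m) {X T : Type} [DecidableEq X] (a : X → Fin m → ℕ) (ha : ∀ x k, 1 < a x k) {M : ℕ}
    (hM : 0 < M) (u : X → ℕ) (hu : ∀ x, 0 < u x) (huM : ∀ x, u x < M) (c : T → ℕ)
    (hc : ∀ k, Nat.Coprime k M → ∃ t, c t = k) (ι : Type) [Fintype ι]
    (hS : ∀ x, Fintype.card ι * ∑ k, (1 / a x k : ℚ) < (Nat.totient M : ℚ) / M) :
    Helper73.KT.IsMeet ι (fun t x q => spec (a x) M (c t * u x % M) q) m := by
  classical
  intro i
  have hMq : (0 : ℚ) < M := by exact_mod_cast hM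
  have hφ : (0 : ℚ) < (Nat.totient M : ℚ) / M := by
    have := Nat.totient_pos.2 hM
    positivity
  let d : {l // l ∈ Finset.univ.image i} → ℕ := fun l => (Finset.univ.filter fun a => i a = l.1).card
  have hd : ∑ l, d l = Fintype.card ι := by
    have h1 := Finset.card_eq_sum_card_image i (Finset.univ : Finset ι)
    rw [Finset.card_univ] at h1
    rw [h1]
    exact Finset.sum_coe_sort (Finset.univ.image i) fun l => (Finset.univ.filter fun a => i a = l).card
  let σ : X → ℚ := fun x => ∑ k, (1 / a x k : ℚ)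
  have hσ : ∀ x, 0 ≤ σ x := fun x => Finset.sum_nonneg fun k _ => by positivity
  have hsum : ∑ l : {l // l ∈ Finset.univ.image i}, (d l : ℚ) * σ l.1.1 < (Nat.totient M : ℚ) / M := by
    rcases Nat.eq_zero_or_pos (Fintype.card ι) with h0 | h0
    · rw [h0] at hd
      have h1 : ∀ l, d l = 0 := fun l => (Finset.sum_eq_zero_iff.1 hd) l (Finset.mem_univ l)
      simp only [h1, Nat.cast_zero, zero_mul, Finset.sum_const_zero]
      exact hφ
    · have hcq : (0 : ℚ) < Fintype.card ι := by exact_mod_cast h0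
      have hne : ∃ l : {l // l ∈ Finset.univ.image i}, 0 < d l := by
        by_contra hcon
        push Not at hcon
        have : ∑ l, d l = 0 := Finset.sum_eq_zero fun l _ => by have := hcon l; omega
        omega
      have h1 : ∑ l : {l // l ∈ Finset.univ.image i}, (d l : ℚ) * σ l.1.1 <
          ∑ l : {l // l ∈ Finset.univ.image i}, (d l : ℚ) * ((Nat.totient M : ℚ) / M / Fintype.card ι) := by
        obtain ⟨l, hl⟩ := hne
        have h2 : ∀ x, σ x < (Nat.totient M : ℚ) / M / Fintype.card ι := by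
          intro x
          rw [lt_div_iff₀ hcq, mul_comm]
          exact hS x
        refine Finset.sum_lt_sum (fun l _ => mul_le_mul_of_nonneg_left (h2 _).le (by positivity)) ⟨l, Finset.mem_univ l, ?_⟩
        exact mul_lt_mul_of_pos_left (h2 _) (by exact_mod_cast hl)
      refine h1.trans_le (le_of_eq ?_)
      rw [← Finset.sum_mul, ← Nat.cast_sum, hd]
      field_simp
  obtain ⟨t, ht, h⟩ := exists_unit' (J := {l // l ∈ Finset.univ.image i}) hM (fun l => u l.1.1)
    (fun l => (d l : ℚ) * σ l.1.1) (fun l => mul_nonneg (by positivity) (hσ _)) (fun l => l.1.2)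
    (fun l => hu _) (fun l => huM _) hsum
  obtain ⟨t', ht'⟩ := hc t ht
  refine ⟨t', fun l => ?_⟩
  rcases (Finset.univ.filter fun a => i a = l).eq_empty_or_nonempty with h1 | ⟨b, hb⟩
  · rw [h1, Finset.card_empty]
    exact Nat.zero_le _
  rw [Finset.mem_filter] at hb
  have hl : l ∈ Finset.univ.image i := Finset.mem_image.2 ⟨b, Finset.mem_univ _, hb.2⟩
  have h1 := h ⟨l, hl⟩
  have hlt := Nat.mod_lt (t * u l.1) hM
  have hdl : d ⟨l, hl⟩ = (Finset.univ.filter fun a => i a = l).card := rfl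
  rw [← hdl]
  unfold hzero
  simp only [ht']
  by_cases hb' : l.2
  · rw [if_pos hb']
    rw [if_pos hb'] at h1
    refine Helper61.KT.spec_zero_ge hm (ha _) ?_
    have h5 : (d ⟨l, hl⟩ : ℚ) * ∑ k, (1 / a l.1 k : ℚ) < ((M : ℚ) - ((t * u l.1 % M : ℕ) : ℚ)) / M :=
      (lt_div_iff₀ hMq).2 h1
    rw [sub_div, div_self hMq.ne'] at h5
    exact lt_sub_iff_add_lt.1 h5
  · rw [if_neg hb']
    rw [if_neg hb'] at h1
    refine Helper61.KT.spec_top_ge hm (ha _) hlt ?_
    exact (lt_div_iff₀ hMq).2 h1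

end Pool.Agent.Helper98.KU
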