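import Pool.Agent.Helper79.KQ.Defs
import Pool.Agent.Helper61.K4.Defs

/-! Several families, all degrees: definitions. `cl x` is the family of the label `x`. -/

set_option autoImplicit false

open Matrix H77MT Pool.Agent.Helper79.KN Pool.Agent.Helper79.KQ

namespace Pool.Agent.Helper98.KU

variable {Γ X n K L S : Type} [Group Γ] [DecidableEq X] [Fintype X] [Fintype n] [DecidableEq n] [Field K] [Field L]

/-- `A` is the reduction of `M`. -/
def IsRed (O : ValuationSubring K) (M : Matrix n n K) (A : Matrix n n (IsLocalRing.ResidueField O)) : Prop :=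
  ∃ M₀ : Matrix n n O, M = M₀.map (algebraMap O K) ∧ M₀.map (IsLocalRing.residue O) = A

/-- The matrices `y` over the residue field with `y ^ 2 = 0`, such that `1 + y` is the reduction of `ρ x γ` for a `γ` for
which the reductions on the eigenspaces of the other families are `1`. -/
def Unips (cl : X → S) (ρ : Rep Γ X n K) (x : X) (O : ValuationSubring K) : Set (Matrix n n (IsLocalRing.ResidueField O)) :=
  {y | y * y = 0 ∧ ∃ γ : Γ, IsRed O (ρ x γ : Matrix n n K) (1 + y) ∧
    ∀ x', cl x' ≠ cl x → IsRed O (ρ x' γ : Matrix n n K) 1}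

/-- The residual representation of `ρ x` is large (of type `SL`, or of type `Sp` or `SO`), independently of the other
families. -/
def IsBigAts (cl : X → S) (ρ : Rep Γ X n K) (x : X) : Prop :=
  ∃ O : ValuationSubring K, (∀ x' γ a b, (ρ x' γ : Matrix n n K) a b ∈ O) ∧
    (∀ k : ℕ, 0 < k → k ≤ Fintype.card n → (k : IsLocalRing.ResidueField O) ≠ 0) ∧
    ((∀ z : Matrix n n (IsLocalRing.ResidueField O), z.trace = 0 →
        z ∈ Submodule.span (IsLocalRing.ResidueField O) (Unips cl ρ x O)) ∨
      ∃ J : Matrix n n (IsLocalRing.ResidueField O), IsUnit J.det ∧ (Jᵀ = J ∨ Jᵀ = -J) ∧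
        ∀ z, zᵀ * J + J * z = 0 →
          z ∈ Submodule.span (IsLocalRing.ResidueField O) {y | y ∈ Unips cl ρ x O ∧ yᵀ * J + J * y = 0})

/-- The eigenvalues of the elements of a subgroup of finite index satisfy, in some order, the equation with exponents `m`. -/
def HasRels (τ : Rep Γ X n L) (Δ : Subgroup Γ) (m : X → n → ℤ) : Prop :=
  ∃ Δ' : Subgroup Γ, Δ' ≤ Δ ∧ Δ'.FiniteIndex ∧ ∀ γ' ∈ Δ', ∃ v : X → n → L,
    (∀ x, HasRoots (τ x γ' : Matrix n n L) (v x)) ∧ ∏ x, ∏ k, v x k ^ m x k = 1

/-- A (finite) compatible system: class field theory for the determinants of the subspaces stable under subgroups of finite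
index, and Serre's theorem on the eigenvalues of a Frobenius element. -/
structure IsSystems {I : Type} {K : I → Type} [∀ i, Field (K i)] (ρ : ∀ i, Rep Γ X n (K i)) : Prop where
  det : ∀ i j, HasDet (ρ i) (ρ j)
  frob : ∀ Δ : Subgroup Γ, Δ.FiniteIndex → ∃ γ ∈ Δ, ∃ u : ∀ i, X → n → K i,
    (∀ i x, HasRoots (ρ i x γ : Matrix n n (K i)) (u i x)) ∧
    ∀ (i j : I) (m : X → n → ℤ), ∏ x, ∏ k, u i x k ^ m x k = 1 → HasRels (ρ j) Δ m

end Pool.Agent.Helper98.KU
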