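import Pool.Agent.Helper79.KQ.Asm
import Pool.Agent.Helper98.KU.Defs
import Pool.Agent.Helper15.K4.D
import Pool.Agent.Helper21.K4.Pair
import Pool.Agent.Helper43.K4.A3
import Pool.Agent.Helper48.K4.NoLink
import Pool.Agent.Helper35.K4.C
import Pool.Agent.Helper61.K4.Gour

/-! Several families, all degrees: the criterion. -/

set_option autoImplicit false

open Matrix H77MT Pool.Agent.Helper79.KN Pool.Agent.Helper79.KQ Pool.Agent.Helper61.K4

namespace Pool.Agent.Helper98.KU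

section link
variable {X n K : Type} [Fintype n] [DecidableEq n] [Field K]

theorem link_symm {L : Submodule K (X → Matrix n n K)} {i j : X} (h : IsLink L i j) : IsLink L j i := by
  obtain ⟨T, hT, h | h⟩ := h
  · refine ⟨T⁻¹, Matrix.isUnit_nonsing_inv_det T hT, Or.inl fun a ha => ?_⟩
    obtain ⟨c, hc⟩ := h a ha
    refine ⟨-c, ?_⟩
    have h1 : T⁻¹ * (a j * T - T * a i) * T⁻¹ = T⁻¹ * (c • T) * T⁻¹ := by rw [hc]
    have h2 : T⁻¹ * T = 1 := Matrix.nonsing_inv_mul T hT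
    have h3 : T * T⁻¹ = 1 := Matrix.mul_nonsing_inv T hT
    rw [mul_sub, sub_mul, Matrix.mul_smul, Matrix.smul_mul, h2, one_mul] at h1
    have h4 : T⁻¹ * (a j * T) * T⁻¹ = T⁻¹ * a j := by
      rw [mul_assoc, mul_assoc, h3, mul_one]
    have h5 : T⁻¹ * (T * a i) * T⁻¹ = a i * T⁻¹ := by
      rw [← mul_assoc, h2, one_mul]
    rw [h4, h5] at h1
    rw [neg_smul, ← h1]
    abel
  · refine ⟨Tᵀ, by rwa [Matrix.det_transpose], Or.inr fun a ha => ?_⟩
    obtain ⟨c, hc⟩ := h a ha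
    refine ⟨c, ?_⟩
    have h1 := congrArg Matrix.transpose hc
    rw [transpose_add, transpose_mul, transpose_mul, transpose_transpose, transpose_smul] at h1
    rw [← h1, add_comm]

end link

section blocks
variable {Γ X T n : Type} [Group Γ] [DecidableEq X] [Fintype X] [Fintype n] [DecidableEq n]

/-- the blocks at every `i` -/
theorem blocks {I : Type} {K : I → Type} [∀ i, Field (K i)] [∀ i, IsAlgClosed (K i)] [∀ i, CharZero (K i)]
    {ρ : ∀ i, Rep Γ X n (K i)} {h : T → X → ℤ → ℕ} (h4 : 4 < Fintype.card n)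
    (hasym : ∀ x, ∃ t, ∀ w : ℤ, ∃ p, h t x p ≠ h t x (w - p))
    (hC : IsSystem ρ) (hB : ∀ x, ∃ i, HasHT (ρ i) h ∧ IsBigAt (ρ i) x) (i : I) (Δ : Subgroup Γ)
    (hΔ : Δ.FiniteIndex) (x : X) (c : Matrix n n (K i)) (hc : c.trace = 0) : ∃ a ∈ fam (ρ i) Δ, a x = c := by
  classical
  choose j hj using hB
  have hfull : ∀ (x : X) (Δ : Subgroup Γ), Δ.FiniteIndex → ∀ M : Matrix n n (K (j x)), M.det = 1 →
      M ∈ zcl {s | ∃ γ ∈ Δ, s = (ρ (j x) x γ : Matrix n n (K (j x)))} := fun x Δ hΔ M hM =>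
    full_at (ρ (j x)) h4 x (hasym x) (hj x).2 (hj x).1 Δ hΔ M hM
  obtain ⟨γ, hγ, u, hu, hrel⟩ := hC.frob Δ hΔ
  have hind : ∀ (x : X) (m : n → ℤ), ∏ k, u i x k ^ m k = 1 → ∀ k l, m k = m l := by
    intro x m hm
    obtain ⟨Δ', _, hfin, h1⟩ := hrel i (j x) x m hm
    exact Pool.Agent.Helper79.KM.no_rel (ρ := ρ (j x) x) (Δ := Δ') (hfull x Δ' hfin) m h1
  have hirr : ∀ (x : X) (Δ : Subgroup Γ), Δ.FiniteIndex → ∀ W : Submodule (K i) (n → K i),
      (∀ γ ∈ Δ, ∀ w ∈ W, (ρ i x γ : Matrix n n (K i)) *ᵥ w ∈ W) → W = ⊥ ∨ W = ⊤ := by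
    intro x Δ hΔ W hW
    by_contra hcon
    push Not at hcon
    obtain ⟨Δ', ψ, hle, hfin, hψ⟩ := hC.det i (j x) x Δ hΔ W hW
    have h1 : 0 < Module.finrank (K i) W := by
      rw [Nat.pos_iff_ne_zero]
      intro h0
      exact hcon.1 (Submodule.finrank_eq_zero.1 h0)
    have h2 : Module.finrank (K i) W < Fintype.card n := by
      have := Submodule.finrank_lt hcon.2
      rwa [Module.finrank_fintype_fun_eq_card] at this
    exact Pool.Agent.Helper79.KM.no_char (ρ := ρ (j x) x) ψ h1 h2 (hfull x Δ' hfin) hψ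
  obtain ⟨M', h1, h2⟩ := Pool.Agent.Helper31.KN.full_l (ρ i) Δ hΔ hγ (u i) (hu i) hind x (hirr x) c hc
  exact ⟨M', h2, h1⟩

end blocks

section conv
variable {Γ X T n S : Type} [Group Γ] [DecidableEq X] [Fintype X] [Fintype n] [DecidableEq n]

theorem isSystem_conv {I : Type} {K : I → Type} [∀ i, Field (K i)] {ρ : ∀ i, Rep Γ X n (K i)} (hC : IsSystems ρ) :
    IsSystem ρ := by
  classical
  refine ⟨hC.det, fun Δ hΔ => ?_⟩
  obtain ⟨γ, hγ, u, hu, hrel⟩ := hC.frob Δ hΔ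
  refine ⟨γ, hγ, u, hu, fun i j x m hm => ?_⟩
  obtain ⟨Δ', h1, h2, h3⟩ := hrel i j (fun y => if y = x then m else 0) (by
    rw [Finset.prod_eq_single x]
    · simpa using hm
    · intro y _ hy
      simp [hy]
    · simp)
  refine ⟨Δ', h1, h2, fun γ' hγ' => ?_⟩
  obtain ⟨v, hv, hv1⟩ := h3 γ' hγ'
  refine ⟨v x, hv x, ?_⟩
  rw [Finset.prod_eq_single x] at hv1
  · simpa using hv1
  · intro y _ hy
    simp [hy]
  · simp

omit [DecidableEq X] [Fintype X] in
theorem isBigAt_conv {K : Type} [Field K] {cl : X → S} {ρ : Rep Γ X n K} {x : X} (h : IsBigAts cl ρ x) : IsBigAt ρ x := by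
  obtain ⟨O, h1, h2, h3⟩ := h
  have hU : Unips cl ρ x O ⊆ Unip ρ x O := by
    rintro y ⟨hy, γ, ⟨M, hM1, hM2⟩, -⟩
    exact ⟨hy, γ, M, hM1, hM2⟩
  refine ⟨O, h1 x, h2, ?_⟩
  rcases h3 with h3 | ⟨J, hJ, hs, h3⟩
  · exact Or.inl fun z hz => Submodule.span_mono hU (h3 z hz)
  · refine Or.inr ⟨J, hJ, hs, fun z hz => Submodule.span_mono ?_ (h3 z hz)⟩
    rintro y ⟨hy, hy1⟩
    exact ⟨hU hy, hy1⟩

/-- two elements of the residual image, independent of the other families, which are not orthogonal -/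
theorem exists_unips {K : Type} [Field K] {cl : X → S} {ρ : Rep Γ X n K} {x : X} (h4 : 4 < Fintype.card n)
    (h : IsBigAts cl ρ x) : ∃ O : ValuationSubring K, (∀ x' γ a b, (ρ x' γ : Matrix n n K) a b ∈ O) ∧
      (∀ k : ℕ, 0 < k → k ≤ Fintype.card n → (k : IsLocalRing.ResidueField O) ≠ 0) ∧
      ∃ y ∈ Unips cl ρ x O, ∃ z ∈ Unips cl ρ x O, (y * z).trace ≠ 0 := by
  obtain ⟨O, h1, h2, h3⟩ := h
  refine ⟨O, h1, h2, ?_⟩
  have h2' : (2 : IsLocalRing.ResidueField O) ≠ 0 := by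
    have := h2 2 (by norm_num) (by omega)
    exact_mod_cast this
  refine Pool.Agent.Helper21.K4.exists_pair h2' h4 ?_
  rcases h3 with h3 | ⟨J, hJ, hs, h3⟩
  · exact Or.inl h3
  · refine Or.inr ⟨J, hJ, hs, fun z hz => Submodule.span_mono ?_ (h3 z hz)⟩
    exact fun y hy => hy.1

end conv

section pair
variable {Γ X T n S : Type} [Group Γ] [DecidableEq X] [Fintype X] [Fintype n] [DecidableEq n]

/-- the pair `x`, `x'` -/
def pr {K : Type} [Field K] (ρ : Rep Γ X n K) (x x' : X) : Rep Γ Bool n K := fun b => ρ (if b then x else x')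

theorem mem_comp {Y K : Type} [DecidableEq Y] [Fintype Y] [Field K] (ρ : Rep Γ X n K) (f : Y → X) (Δ : Subgroup Γ)
    {M : X → Matrix n n K} (h : blockDiagonal M ∈ zcl (img ρ Δ)) :
    blockDiagonal (fun y => M (f y)) ∈ zcl (img (X := Y) (fun y => ρ (f y)) Δ) := by
  classical
  intro F hF
  let φ : (n × Y) × (n × Y) → MvPolynomial ((n × X) × (n × X)) K := fun p =>
    if p.1.2 = p.2.2 then MvPolynomial.X ((p.1.1, f p.1.2), (p.2.1, f p.2.2)) else 0
  have hev : ∀ M : X → Matrix n n K, ev (blockDiagonal M) (MvPolynomial.bind₁ φ F) =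
      ev (blockDiagonal fun y => M (f y)) F := by
    intro M
    unfold ev
    rw [MvPolynomial.aeval_bind₁]
    congr 2
    funext p
    obtain ⟨⟨a, y⟩, b, y'⟩ := p
    simp only [φ]
    by_cases h : y = y'
    · subst h
      simp [blockDiagonal_apply]
    · simp [blockDiagonal_apply, h]
  have h1 := h (MvPolynomial.bind₁ φ F) (by
    rintro _ ⟨γ, hγ, rfl⟩
    show ev (blockDiagonal fun x => (ρ x γ : Matrix n n K)) (MvPolynomial.bind₁ φ F) = 0
    rw [hev]
    exact hF _ ⟨γ, hγ, rfl⟩)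
  have h2 := hev M
  rw [show ev (blockDiagonal M) (MvPolynomial.bind₁ φ F) = 0 from h1] at h2
  exact h2.symm

theorem isHT_comp {Y K : Type} [DecidableEq Y] [Fintype Y] [Field K] (ρ : Rep Γ X n K) (f : Y → X) {h : X → ℤ → ℕ}
    {P : Finset ℤ} {R : X → ℤ → Matrix n n K} (hR : IsHT ρ h P R) :
    IsHT (X := Y) (fun y => ρ (f y)) (fun y => h (f y)) P (fun y => R (f y)) := by
  obtain ⟨h1, h2, h3, h4, h5⟩ := hR
  refine ⟨fun y => h1 (f y), fun y => h2 (f y), fun y => h3 (f y), fun y => h4 (f y), fun Δ hΔ z hz => ?_⟩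
  exact mem_comp ρ f Δ (M := fun x => ∑ p ∈ P, z ^ p • R x p) (h5 Δ hΔ z hz)

theorem hasHT_comp {Y K : Type} [DecidableEq Y] [Fintype Y] [Field K] (ρ : Rep Γ X n K) (f : Y → X) {h : T → X → ℤ → ℕ}
    (hR : HasHT ρ h) : HasHT (X := Y) (fun y => ρ (f y)) (fun t y => h t (f y)) := by
  intro t
  obtain ⟨P, R, hR⟩ := hR t
  exact ⟨P, fun y => R (f y), isHT_comp ρ f hR⟩

/-- single eigenspaces -/
theorem isSystem_comp {Y I : Type} {K : I → Type} [DecidableEq Y] [Fintype Y] [∀ i, Field (K i)]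
    {ρ : ∀ i, Rep Γ X n (K i)} (f : Y → X) (hC : IsSystem ρ) :
    IsSystem (X := Y) (K := K) fun i y => ρ i (f y) := by
  refine ⟨fun i j y => hC.det i j (f y), fun Δ hΔ => ?_⟩
  obtain ⟨γ, hγ, u, hu, hrel⟩ := hC.frob Δ hΔ
  exact ⟨γ, hγ, fun i y => u i (f y), fun i y => hu i (f y), fun i j y m hm => hrel i j (f y) m hm⟩

variable {I : Type} {K : I → Type} [∀ i, Field (K i)] [∀ i, IsAlgClosed (K i)] [∀ i, CharZero (K i)]
  {ρ : ∀ i, Rep Γ X n (K i)} {h : T → X → ℤ → ℕ} {cl : X → S}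

/-- the pair is full where one of its members is large -/
theorem pair_full (h4 : 4 < Fintype.card n) (hS : IsSeps cl h) (hC : IsSystem ρ)
    (hB : ∀ x, ∃ i, HasHT (ρ i) h ∧ IsBigAt (ρ i) x) {i : I} {x x' : X} (hHT : HasHT (ρ i) h)
    (hx : IsBigAts cl (ρ i) x) (hne : x ≠ x') : IsFull (pr (ρ i) x x') := by
  classical
  intro Δ hΔ M hM
  have := hΔ
  have hfin : Δ.normalCore.FiniteIndex := inferInstance
  let f : Bool → X := fun b => if b then x else x'
  have hb : ∀ (b : Bool) (c : Matrix n n (K i)), c.trace = 0 → ∃ a ∈ fam (pr (ρ i) x x') Δ.normalCore, a b = c :=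
    fun b c hc => blocks (ρ := fun i => pr (ρ i) x x') (h := fun t b => h t (f b)) h4 (fun b => hS.asym (f b))
      (isSystem_comp f hC) (fun b => by
        obtain ⟨i, h1, h2⟩ := hB (f b)
        exact ⟨i, hasHT_comp (ρ i) f h1, h2⟩) i Δ.normalCore hfin b c hc
  have hno : ¬ IsLink (fam (pr (ρ i) x x') Δ.normalCore) true false := by
    by_cases hcl : cl x = cl x'
    · obtain ⟨t, ht⟩ := hS.sep x x' hne hcl
      obtain ⟨P, R, hR⟩ := hasHT_comp (ρ i) f hHT t
      have : Nonempty n := Fintype.card_pos_iff.1 (by omega)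
      refine not_link_of_weights _ ⟨P, R true, R false, _, ht_fam hR Δ.normalCore hfin, hR.mul true, hR.mul false,
        hR.sum true, hR.sum false, hR.supp true, hR.supp false, rfl, rfl, fun w => ?_⟩
      simp only [hR.rank]
      exact ht w
    · obtain ⟨O, hint, hchar, y, hy, z, hz, hyz⟩ := exists_unips h4 hx
      refine Pool.Agent.Helper43.K4.not_link_resid O h4 hchar inferInstance (x := true) (x' := false)
        (fun γ a b => hint x' γ a b) (hb true) hy.1 hz.1 hyz ?_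
      have hU : ∀ w ∈ Unips cl (ρ i) x O, ∃ (γ : Γ) (M M' : Matrix n n O),
          (pr (ρ i) x x' true γ : Matrix n n (K i)) = M.map (algebraMap O (K i)) ∧
          M.map (IsLocalRing.residue O) = 1 + w ∧
          (pr (ρ i) x x' false γ : Matrix n n (K i)) = M'.map (algebraMap O (K i)) ∧
          M'.map (IsLocalRing.residue O) = 1 := by
        rintro w ⟨-, γ, ⟨M, hM1, hM2⟩, hoth⟩
        obtain ⟨M', hM3, hM4⟩ := hoth x' fun h => hcl h.symm
        exact ⟨γ, M, M', hM1, hM2, hM3, hM4⟩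
      rintro w (rfl | rfl)
      · exact hU _ hy
      · exact hU _ hz
  refine zcl_mono (img_mono _ (Subgroup.normalCore_le Δ)) ?_
  refine full_of_LL _ Δ.normalCore (fun a ha => ?_) M hM
  refine Pool.Agent.Helper15.K4.goursat_link (fam (pr (ρ i) x x') Δ.normalCore) (fam_br _ _) hb ?_ a ha
  intro b b' hbb hl
  cases b <;> cases b'
  · exact hbb rfl
  · exact hno (link_symm hl)
  · exact hno hl
  · exact hbb rfl

/-- no link at any prime -/
theorem no_link (h4 : 4 < Fintype.card n) (hS : IsSeps cl h) (hC : IsSystems ρ)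
    (hB : ∀ x, ∃ i, HasHT (ρ i) h ∧ IsBigAts cl (ρ i) x) {j : I} {x x' : X} (hne : x ≠ x') (Δ : Subgroup Γ)
    (hn : Δ.Normal) (hΔ : Δ.FiniteIndex) : ¬ IsLink (fam (ρ j) Δ) x x' := by
  classical
  have hB' : ∀ x, ∃ i, HasHT (ρ i) h ∧ IsBigAt (ρ i) x := fun x => by
    obtain ⟨i, h1, hi⟩ := hB x
    exact ⟨i, h1, isBigAt_conv hi⟩
  have hC' := isSystem_conv hC
  obtain ⟨i, hHT, hi⟩ := hB x
  have hfull := pair_full h4 hS hC' hB' hHT hi hne
  intro hl
  obtain ⟨γ, hγ, u, hu, hrel⟩ := hC.frob Δ hΔ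
  obtain ⟨m, hm, hm0, hm1, hm2⟩ := Pool.Agent.Helper35.K4.rel_of_link h4 hn hne
    (fun c hc => blocks h4 hS.asym hC' hB' j Δ hΔ x c hc) hl (γ := γ) (u := u j) (hu j)
  obtain ⟨Δ', hle, hfin, hv⟩ := hrel j i m hm
  let f : Bool → X := fun b => if b then x else x'
  have hf : Function.Injective f := by
    intro b b' hbb
    cases b <;> cases b' <;> simp [f] at hbb ⊢
    · exact hne hbb.symm
    · exact hne hbb
  have hcon := Pool.Agent.Helper48.K4.no_rel_full (hfull Δ' hfin) (fun b => m (f b)) (fun γ' hγ' => by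
    obtain ⟨v, hv1, hv2⟩ := hv γ' hγ'
    refine ⟨fun b => v (f b), fun b => hv1 (f b), ?_⟩
    rw [Fintype.prod_bool]
    rw [Finset.prod_eq_mul x x' hne] at hv2
    · exact hv2
    · intro y _ hy
      simp [hm0 y hy.1 hy.2]
    · simp
    · simp)
  obtain ⟨y, k, hyk⟩ := hm1
  obtain ⟨b, hb⟩ : ∃ b, f b = y := by
    by_contra hc
    push Not at hc
    have h1 := hm0 y (fun h => hc true h.symm) (fun h => hc false h.symm) k
    omega
  refine Pool.Agent.Helper48.K4.not_const' (m := fun b => m (f b)) (a := 1) (x₀ := b) (k₀ := k) (by rw [← hyk, ← hb]) ?_ hcon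
  have h1 : (Finset.univ.filter fun p : n × Bool => m (f p.2) p.1 = 1).card ≤
      (Finset.univ.filter fun p : n × X => m p.2 p.1 = 1).card := by
    refine Finset.card_le_card_of_injOn (fun p => (p.1, f p.2)) ?_ ?_
    · intro p hp
      rw [Finset.mem_coe, Finset.mem_filter] at hp ⊢
      exact ⟨Finset.mem_univ _, hp.2⟩
    · intro p _ q _ hpq
      rw [Prod.ext_iff] at hpq
      exact Prod.ext hpq.1 (hf hpq.2)
  omega

/-- **The criterion for several families.** -/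
theorem systems (h4 : 4 < Fintype.card n) (hS : IsSeps cl h) (hC : IsSystems ρ)
    (hB : ∀ x, ∃ i, HasHT (ρ i) h ∧ IsBigAts cl (ρ i) x) (i : I) : IsFull (ρ i) := by
  classical
  intro Δ hΔ M hM
  have := hΔ
  have hfin : Δ.normalCore.FiniteIndex := inferInstance
  have hB' : ∀ x, ∃ i, HasHT (ρ i) h ∧ IsBigAt (ρ i) x := fun x => by
    obtain ⟨i, h1, hi⟩ := hB x
    exact ⟨i, h1, isBigAt_conv hi⟩
  refine zcl_mono (img_mono _ (Subgroup.normalCore_le Δ)) ?_
  refine full_of_LL _ Δ.normalCore (fun a ha => ?_) M hM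
  exact Pool.Agent.Helper15.K4.goursat_link (fam (ρ i) Δ.normalCore) (fam_br _ _)
    (fun x c hc => blocks h4 hS.asym (isSystem_conv hC) hB' i Δ.normalCore hfin x c hc)
    (fun x x' hne => no_link h4 hS hC hB hne Δ.normalCore inferInstance hfin) a ha

end pair

end Pool.Agent.Helper98.KU
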