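import Pool.Agent.Helper73.KT.Main
import Pool.Agent.Helper79.KQ.Asm
import Pool.Agent.Helper21.KQ.Main
import Pool.Agent.Helper98.KU.MeetM
import Pool.Agent.Helper98.KU.Cyc

/-!
All degrees: the generalized Tate conjecture for the products of the varieties `w ^ M = f(x_1, …, x_m)`.
-/

set_option autoImplicit false

open Pool.Agent.Helper79.KN Pool.Agent.Helper79.KQ Pool.Agent.Helper73.KT

namespace Pool.Agent.Helper98.KU

theorem gtc {m : ℕ} (hm : 1 < m) (a : Fin m → ℕ) (hco : ∀ k l, k ≠ l → Nat.Coprime (a k) (a l)) (ha : ∀ k, 1 < a k)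
    (M : ℕ) (hM0 : 0 < M) (hM : ∀ r : ℕ, r.Prime → r ∣ M → 4 * ∏ k, a k < r) {Γ n I : Type} {K : I → Type} [Group Γ]
    [Fintype n] [DecidableEq n] [∀ i, Field (K i)] [∀ i, IsAlgClosed (K i)] [∀ i, CharZero (K i)]
    [Fintype {u : ℕ // 0 < u ∧ 2 * u < M}]
    (hn : Fintype.card n = ∏ k, (a k - 1)) (h4 : 4 < Fintype.card n)
    (ρ : ∀ i, Rep Γ {u : ℕ // 0 < u ∧ 2 * u < M} n (K i))
    (hH : ∀ i, HasHT (T := {t : ℕ // Nat.Coprime t M}) (ρ i) fun t u q => spec a M (t.1 * u.1 % M) q)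
    (hC : IsSystem ρ) (hB : ∀ x, ∃ i, IsBigAt (ρ i) x) (i : I) (ι : Type) [Fintype ι] [DecidableEq ι] :
    (Fintype.card ι < Fintype.card n → Lines ι (ρ i)) ∧
      (Fintype.card ι * ∑ k, (1 / a k : ℚ) < (Nat.totient M : ℚ) / M →
        Coniveau (T := {t : ℕ // Nat.Coprime t M}) ι (ρ i) (fun t u q => spec a M (t.1 * u.1 % M) q) m) := by
  have hfull : IsFull (ρ i) := system h4 (Pool.Agent.Helper21.KQ.isSep_cyclic (cyclic (by omega) a hco ha hM hn h4)) hH hC hB i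
  obtain ⟨h1, h2⟩ := Helper73.KT.cor Γ {u : ℕ // 0 < u ∧ 2 * u < M} {t : ℕ // Nat.Coprime t M} n (K i) ι
    (fun t u q => spec a M (t.1 * u.1 % M) q) m (ρ i) hfull
  refine ⟨h1, fun hS => h2 (by omega) ?_ (meet_sum m a M ι hM0 (by omega) ha hS)⟩
  rw [hn]
  refine Helper61.KT.sq_lt hm a ha (hS.trans_le ?_)
  rw [div_le_one (by exact_mod_cast hM0)]
  exact_mod_cast Nat.totient_le M

end Pool.Agent.Helper98.KU
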