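import Pool.Agent.Helper61.K4.Defs
import Pool.Agent.Helper21.KQ.Main
import Pool.Agent.Helper98.KU.Cyc

/-!
All degrees, several families: the eigenspaces of one family are separated.
-/

set_option autoImplicit false

open Pool.Agent.Helper79.KN Pool.Agent.Helper79.KQ

namespace Pool.Agent.Helper98.KU

/-- **the eigenspaces of one family are separated**; `cl x` is the family of `x` -/
theorem isSeps {m : ℕ} (hm : 0 < m) {X T S : Type} (a : S → Fin m → ℕ)
    (hco : ∀ s k l, k ≠ l → Nat.Coprime (a s k) (a s l)) (ha : ∀ s k, 1 < a s k) {M : ℕ} {cl : X → S} {u : X → ℕ}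
    (hinj : ∀ x x', cl x = cl x' → u x = u x' → x = x')
    (hu : ∀ x, 0 < u x ∧ 2 * u x < M ∧ ∃ r : ℕ, r.Prime ∧ 4 * ∏ k, a (cl x) k < r ∧ r ∣ M / Nat.gcd (u x) M)
    {c : T → ℕ} (hc : ∀ k : ℕ, Nat.Coprime k M → ∃ t, c t = k) {n : Type} [Fintype n]
    (hn : ∀ s, Fintype.card n = ∏ k, (a s k - 1)) (h4 : 4 < Fintype.card n) :
    Pool.Agent.Helper61.K4.IsSeps cl fun t x q => spec (a (cl x)) M (c t * u x % M) q := by
  classical
  have key : ∀ s, IsSep (X := {x // cl x = s}) (T := T) fun t x q => spec (a s) M (c t * u x.1 % M) q := by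
    intro s
    refine Pool.Agent.Helper21.KQ.isSep_cyclic (n := n)
      (cyclic_any hm (a s) (hco s) (ha s) (u := fun x : {x // cl x = s} => u x.1) ?_ ?_ hc (hn s) h4)
    · intro x y h
      exact Subtype.ext (hinj _ _ (x.2.trans y.2.symm) h)
    · rintro ⟨x, rfl⟩
      exact hu x
  refine ⟨fun x => ?_, fun x x' hne hcl => ?_⟩
  · exact (key (cl x)).asym ⟨x, rfl⟩
  · have h1 := (key (cl x)).sep ⟨x, rfl⟩ ⟨x', hcl.symm⟩ (fun h => hne (congrArg Subtype.val h))
    rw [← hcl]
    exact h1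

end Pool.Agent.Helper98.KU
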