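import Pool.Agent.Helper73.KT.Main
import Pool.Agent.Helper98.KU.Crit
import Pool.Agent.Helper98.KU.Any
import Pool.Agent.Helper98.KU.Seps

/-!
Several families, all degrees: the generalized Tate conjecture for the products of the varieties
`w ^ M = f_s(x_1, …, x_m)`.
-/

set_option autoImplicit false

open Pool.Agent.Helper79.KN Pool.Agent.Helper79.KQ Pool.Agent.Helper73.KT

namespace Pool.Agent.Helper98.KU

theorem gtcs {m : ℕ} (hm : 1 < m) {S X T : Type} [Nonempty S] [Fintype X] [DecidableEq X] (a : S → Fin m → ℕ)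
    (hco : ∀ s k l, k ≠ l → Nat.Coprime (a s k) (a s l)) (ha : ∀ s k, 1 < a s k) {M : ℕ} (hM : 0 < M) {cl : X → S}
    {u : X → ℕ} (hinj : ∀ x x', cl x = cl x' → u x = u x' → x = x')
    (hu : ∀ x, 0 < u x ∧ 2 * u x < M ∧ ∃ r : ℕ, r.Prime ∧ 4 * ∏ k, a (cl x) k < r ∧ r ∣ M / Nat.gcd (u x) M)
    {c : T → ℕ} (hc : ∀ k : ℕ, Nat.Coprime k M → ∃ t, c t = k)
    {Γ n I : Type} {K : I → Type} [Group Γ] [Fintype n] [DecidableEq n] [∀ i, Field (K i)] [∀ i, IsAlgClosed (K i)]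
    [∀ i, CharZero (K i)] (hn : ∀ s, Fintype.card n = ∏ k, (a s k - 1)) (h4 : 4 < Fintype.card n)
    (ρ : ∀ i, Rep Γ X n (K i)) (hC : IsSystems ρ)
    (hB : ∀ x, ∃ i, HasHT (ρ i) (fun (t : T) x q => spec (a (cl x)) M (c t * u x % M) q) ∧ IsBigAts cl (ρ i) x)
    (i : I) (ι : Type) [Fintype ι] [DecidableEq ι] :
    (Fintype.card ι < Fintype.card n → Lines ι (ρ i)) ∧
      ((∀ s, Fintype.card ι * ∑ k, (1 / a s k : ℚ) < (Nat.totient M : ℚ) / M) →
        Coniveau ι (ρ i) (fun (t : T) x q => spec (a (cl x)) M (c t * u x % M) q) m) := by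
  have hfull : IsFull (ρ i) := systems h4 (isSeps (by omega) a hco ha hinj hu hc hn h4) hC hB i
  obtain ⟨h1, h2⟩ := Helper73.KT.cor Γ X T n (K i) ι (fun t x q => spec (a (cl x)) M (c t * u x % M) q) m (ρ i) hfull
  refine ⟨h1, fun hS => ?_⟩
  obtain ⟨s⟩ := ‹Nonempty S›
  refine h2 (by omega) ?_ (meet_any (by omega) (fun x => a (cl x)) (fun x => ha _) hM u (fun x => (hu x).1)
    (fun x => by have := (hu x).2.1; omega) c hc ι fun x => hS (cl x))
  rw [hn s]
  refine Helper61.KT.sq_lt hm (a s) (ha s) ((hS s).trans_le ?_)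
  rw [div_le_one (by exact_mod_cast hM)]
  exact_mod_cast Nat.totient_le M

end Pool.Agent.Helper98.KU
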